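import Mathlib
import Pool.Agent.H54.Hasse

namespace Pool.Agent.Results.MP_3ec6ae_nt.Vanish

open Finset Polynomial Pool.Agent.H54.Hasse

/-- the determinant `{c,d}_n`: rows and columns are indexed by `j + 2`, `k + 2` in `{2, ..., n - 2}` -/
def D (c d : ℤ) (n : ℕ) : ℤ :=
  Matrix.det (Matrix.of fun j k : Fin (n - 3) =>
    jacobiSym ((((j : ℕ) : ℤ) + 2) ^ 2 + c * (((j : ℕ) : ℤ) + 2) * (((k : ℕ) : ℤ) + 2) + d * (((k : ℕ) : ℤ) + 2) ^ 2) n)

def q (c d j k : ℤ) : ℤ := j ^ 2 + c * j * k + d * k ^ 2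

lemma ker (c d : ℤ) (m : ℕ) (v : ℕ → ℤ) (h0 : v 0 = 0) (h1 : v 1 = 0) (h2 : v (m + 2) = 0)
    (h3 : ∃ k < m + 3, v k ≠ 0)
    (h4 : ∀ j : ℕ, 2 ≤ j → j < m + 2 → ∑ k ∈ range (m + 3), jacobiSym (q c d j k) (m + 3) * v k = 0) :
    D c d (m + 3) = 0 := by
  unfold D
  rw [← Matrix.exists_mulVec_eq_zero_iff]
  refine ⟨fun k => v (k + 2), ?_, ?_⟩
  · obtain ⟨k, hk, hv⟩ := h3
    have k0 : k ≠ 0 := by rintro rfl; exact hv h0
    have k1 : k ≠ 1 := by rintro rfl; exact hv h1
    have k2 : k ≠ m + 2 := by rintro rfl; exact hv h2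
    intro e
    have := congrFun e ⟨k - 2, by omega⟩
    simp only [Pi.zero_apply] at this
    rw [show k - 2 + 2 = k by omega] at this
    exact hv this
  · funext j
    have := h4 (j + 2) (by omega) (by have := j.2; omega)
    rw [sum_range_succ, sum_range_succ', sum_range_succ', h0, zero_add 1, h1, h2] at this
    simp only [mul_zero, add_zero] at this
    rw [Finset.sum_range] at this
    simp only [Matrix.mulVec, dotProduct, Matrix.of_apply, Pi.zero_apply]
    rw [← this]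
    refine Finset.sum_congr rfl (fun k _ => ?_)
    simp only [q]; push_cast; congr 2

lemma sum_zm {p : ℕ} [Fact p.Prime] (g : ZMod p → ZMod p) : ∑ t ∈ range p, g (t : ZMod p) = ∑ y, g y :=
  Finset.sum_nbij' (fun t => (t : ZMod p)) (fun y => y.val) (fun _ _ => by simp) (fun y _ => by simp [ZMod.val_lt])
    (fun t ht => ZMod.val_cast_of_lt (by simpa using ht)) (fun y _ => by simp) (fun _ _ => rfl)

lemma int_zero {p : ℕ} [Fact p.Prime] (f : ℕ → ℤ) (h0 : f 0 = 0) (h1 : ∀ t, |f t| ≤ 1)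
    (h2 : ((∑ t ∈ range p, f t : ℤ) : ZMod p) = 0) : ∑ t ∈ range p, f t = 0 := by
  rw [ZMod.intCast_zmod_eq_zero_iff_dvd] at h2
  refine Int.eq_zero_of_abs_lt_dvd h2 ?_
  obtain ⟨m, rfl⟩ : ∃ m, p = m + 1 := ⟨p - 1, by have := (Fact.out : p.Prime).pos; omega⟩
  rw [sum_range_succ', h0, add_zero]
  refine lt_of_le_of_lt (Finset.abs_sum_le_sum_abs _ _) (lt_of_le_of_lt (Finset.sum_le_sum (fun i _ => h1 (i + 1))) ?_)
  simp

lemma jabs (a : ℤ) (n : ℕ) : |jacobiSym a n| ≤ 1 := by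
  rcases jacobiSym.trichotomy a n with h | h | h <;> rw [h] <;> simp

lemma jabs2 (a b : ℤ) (n : ℕ) : |jacobiSym a n * jacobiSym b n| ≤ 1 := by
  rw [abs_mul]; exact mul_le_one₀ (jabs _ _) (abs_nonneg _) (jabs _ _)

section
variable {p : ℕ} [Fact p.Prime] {h : ℕ}

lemma jc (hp : p = 2 * h + 1) (a : ℤ) : ((jacobiSym a p : ℤ) : ZMod p) = (a : ZMod p) ^ h := by
  rw [← jacobiSym.legendreSym.to_jacobiSym, legendreSym.eq_pow]; congr 1; omega

lemma L1 (hp : p = 2 * h + 1) (c d : ℤ) (hd : (d : ZMod p) ≠ 0) (hT : T p h (c : ZMod p) d = 0) (j m : ℤ)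
    (hm : (m : ZMod p) ≠ 0) : ∑ t ∈ range p, jacobiSym (q c d j (m * t)) p * jacobiSym (m * t) p = 0 := by
  refine int_zero _ (by simp [jacobiSym.zero_left (Fact.out : p.Prime).one_lt]) (fun t => jabs2 _ _ _) ?_
  push_cast
  simp only [jc hp, q]
  push_cast
  rw [sum_zm (fun y : ZMod p => ((j : ZMod p) ^ 2 + (c : ZMod p) * j * ((m : ZMod p) * y) + (d : ZMod p) * ((m : ZMod p) * y) ^ 2) ^ h * ((m : ZMod p) * y) ^ h)]
  have e := T_u hp ((j : ZMod p) * c) ((j : ZMod p) ^ 2 * d) (d * m)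
  rw [T_sc hp, hT, mul_zero, mul_zero] at e
  apply mul_left_cancel₀ (pow_ne_zero h (pow_ne_zero 2 hd))
  rw [mul_zero, ← e, Finset.mul_sum]
  refine Finset.sum_congr rfl (fun y _ => ?_)
  rw [G_ev, ← mul_pow, ← mul_pow]; congr 1; simp; ring

lemma L2 (hp : p = 2 * h + 1) (c d : ℤ) (hd : (d : ZMod p) ^ h = -1) (j : ℤ) (hj : (j : ZMod p) ≠ 0) :
    ∑ t ∈ range p, jacobiSym (q c d j t) p * (if t = 0 then 0 else 1) = 0 := by
  refine int_zero _ (by simp) (fun t => by split_ifs <;> simp [jabs]) ?_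
  have e : ∑ t ∈ range p, jacobiSym (q c d j t) p * (if t = 0 then 0 else 1) =
      ∑ t ∈ range p, jacobiSym (q c d j t) p - jacobiSym (q c d j 0) p := by
    obtain ⟨m, hm⟩ : ∃ m, p = m + 1 := ⟨2 * h, hp⟩
    rw [show range p = range (m + 1) by rw [hm], sum_range_succ', sum_range_succ']; simp
  rw [e]; push_cast
  simp only [jc hp, q]
  push_cast
  rw [sum_zm (fun y : ZMod p => ((j : ZMod p) ^ 2 + (c : ZMod p) * j * y + (d : ZMod p) * y ^ 2) ^ h)]
  have hdeg : (C ((j : ZMod p) ^ 2) + C ((c : ZMod p) * j) * X + C (d : ZMod p) * X ^ 2).natDegree ≤ 2 := by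
    compute_degree
  have e2 := ev_sum hp ((C ((j : ZMod p) ^ 2) + C ((c : ZMod p) * j) * X + C (d : ZMod p) * X ^ 2) ^ h)
    (natDegree_pow_le.trans (by nlinarith)) 1
  rw [mul_comm 2 h, coeff_pow_of_natDegree_le hdeg] at e2
  have e3 : (j : ZMod p) ^ (2 * h) = 1 := by
    have := ZMod.pow_card_sub_one_eq_one hj
    rwa [show p - 1 = 2 * h by omega] at this
  simp [coeff_X, coeff_C, hd, -map_pow, -map_mul, -map_intCast] at e2
  rw [e2]; simp [← pow_mul, e3]

end

lemma exp7 {n : ℕ} : ∀ (_ : n ≠ 0) (_ : jacobiSym n 7 = -1), ∃ p, p.Prime ∧ p ∣ n ∧ jacobiSym p 7 = -1 := by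
  induction n using Nat.recOnMul with
  | zero => simp
  | one => intro _ h; simp at h
  | prime p hp => exact fun _ h => ⟨p, hp, dvd_rfl, h⟩
  | mul a b ha hb =>
    intro h0 h
    rw [Nat.cast_mul, jacobiSym.mul_left] at h
    by_cases h1 : jacobiSym a 7 = -1
    · obtain ⟨p, h2, h3, h4⟩ := ha (by rintro rfl; simp at h0) h1
      exact ⟨p, h2, h3.mul_right _, h4⟩
    · have h2 : jacobiSym b 7 = -1 := by
        rcases jacobiSym.trichotomy a 7 with e | e | e
        · rw [e] at h; simp at h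
        · rw [e] at h; simpa using h
        · exact absurd e h1
      obtain ⟨p, h2, h3, h4⟩ := hb (by rintro rfl; simp at h0) h2
      exact ⟨p, h2, h3.mul_left _, h4⟩

lemma m7 {p : ℕ} (ho : p % 2 = 1) (h : jacobiSym p 7 = -1) : jacobiSym (-7) p = -1 := by
  rw [jacobiSym.neg _ (Nat.odd_iff.2 ho)]
  rcases Nat.odd_mod_four_iff.1 ho with h1 | h1
  · rw [ZMod.χ₄_nat_one_mod_four h1]
    have := jacobiSym.quadratic_reciprocity_one_mod_four (b := 7) h1 (by decide)
    rw [h] at this; simp only [one_mul]; exact_mod_cast this.symm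
  · rw [ZMod.χ₄_nat_three_mod_four h1]
    have := jacobiSym.quadratic_reciprocity_three_mod_four (b := 7) h1 (by decide)
    rw [h] at this
    have e : jacobiSym 7 p = 1 := by
      have e2 : jacobiSym ((7 : ℕ) : ℤ) p = 1 := by linarith
      exact_mod_cast e2
    rw [e]; simp

lemma main (c d : ℤ) (n p h m : ℕ) [Fact p.Prime] (hp : p = 2 * h + 1) (hn : n = p * m) (h4 : n % 4 = 1)
    (hd : (d : ZMod p) ≠ 0) (hT : T p h (c : ZMod p) d = 0) (hd2 : Even h → (d : ZMod p) ^ h = -1) : D c d n = 0 := by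
  have pp : p.Prime := Fact.out
  have p2 := pp.two_le
  have mo : m % 2 = 1 := by
    rcases Nat.even_or_odd' m with ⟨k, rfl | rfl⟩
    · exfalso; have : n = 2 * (p * k) := by rw [hn]; ring
      omega
    · omega
  have m0 : m ≠ 0 := by omega
  have : NeZero m := ⟨m0⟩
  have hpm : p ≤ p * m := Nat.le_mul_of_pos_right _ (by omega)
  obtain ⟨N, hN⟩ : ∃ N, n = N + 3 := ⟨n - 3, by omega⟩
  by_cases m1 : m = 1
  · subst m1
    have e : p = N + 3 := by omega
    have hh : Even h := ⟨h / 2, by omega⟩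
    rw [hN]
    refine ker c d N (fun k => (if k = 0 then 0 else 1) - jacobiSym k p) (by simp [jacobiSym.zero_left pp.one_lt])
      (by simp) ?_ ?_ ?_
    · have : jacobiSym ((N + 2 : ℕ) : ℤ) p = jacobiSym (-1) p := jacobiSym.mod_left' (by
        rw [show ((N + 2 : ℕ) : ℤ) = -1 + p by rw [e]; push_cast; ring]; simp)
      simp only [this]
      rw [jacobiSym.at_neg_one (Nat.odd_iff.2 (by omega)), ZMod.χ₄_nat_one_mod_four (by omega)]; simp
    · refine ⟨(d : ZMod p).val, by rw [← e]; exact ZMod.val_lt _, fun hc => ?_⟩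
      simp only [ZMod.val_eq_zero, hd, if_false] at hc
      have e1 := jc hp ((d : ZMod p).val : ℤ)
      rw [show jacobiSym ((d : ZMod p).val : ℤ) p = 1 by linarith] at e1
      rw [Int.cast_one, Int.cast_natCast, ZMod.natCast_zmod_val, hd2 hh] at e1
      have e2 : ((2 : ℕ) : ZMod p) = 0 := by push_cast; linear_combination e1
      rw [ZMod.natCast_eq_zero_iff] at e2
      have := Nat.le_of_dvd (by omega) e2
      omega
    · intro j j1 j2
      rw [← e]
      have a1 := L1 hp c d hd hT j 1 (by simp)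
      have a2 := L2 hp c d (hd2 hh) j (by
        rw [Int.cast_natCast, Ne, ZMod.natCast_eq_zero_iff]; exact Nat.not_dvd_of_pos_of_lt (by omega) (by omega))
      simp only [one_mul] at a1
      simp only [mul_sub, Finset.sum_sub_distrib, a1, a2, sub_zero]
  have m3 : 3 ≤ m := by omega
  have n3 : 3 * m ≤ N + 3 := by rw [← hN, hn]; exact Nat.mul_le_mul_right _ (by omega)
  have e : N + 3 = p * m := by omega
  rw [hN]
  by_cases hpm : p ∣ m
  · refine ker c d N (fun k => (if k = 2 then 1 else 0) - (if k = 2 + m then 1 else 0)) (by simp; omega) (by simp; omega)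
      (by simp; omega) ⟨2, by omega, by simp; omega⟩ (fun j _ _ => ?_)
    simp only [mul_sub, Finset.sum_sub_distrib, mul_ite, mul_one, mul_zero, Finset.sum_ite_eq', Finset.mem_range]
    rw [if_pos (by omega), if_pos (by omega), e, jacobiSym.mul_right, jacobiSym.mul_right]
    have k : q c d j ((2 + m : ℕ) : ℤ) ≡ q c d j ((2 : ℕ) : ℤ) [ZMOD m] :=
      (Int.modEq_iff_dvd.2 ⟨-(c * j + d * (4 + m)), by simp only [q]; push_cast; ring⟩)
    rw [jacobiSym.mod_left' k, jacobiSym.mod_left' (k.of_dvd (Int.natCast_dvd_natCast.2 hpm)), sub_self]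
  · have hm : ((m : ℤ) : ZMod p) ≠ 0 := by rw [Int.cast_natCast, Ne, ZMod.natCast_eq_zero_iff]; exact hpm
    refine ker c d N (fun k => if m ∣ k then jacobiSym k p else 0) (by simp [jacobiSym.zero_left pp.one_lt])
      (by simp [m1]) ?_ ⟨m, by omega, ?_⟩ (fun j _ _ => ?_)
    · rw [if_neg]
      intro hc
      have : m ∣ N + 2 + 1 := ⟨p, by rw [mul_comm]; omega⟩
      exact m1 (Nat.dvd_one.1 ((Nat.dvd_add_right hc).1 this))
    · simp only [dvd_rfl, if_true]
      intro hc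
      have := jc hp m
      rw [hc] at this
      exact pow_ne_zero h hm (by simpa using this.symm)
    · simp only [mul_ite, mul_zero]
      rw [← Finset.sum_filter, e]
      have a1 := L1 hp c d hd hT j m hm
      rw [← mul_zero (jacobiSym (j ^ 2) m), ← a1, Finset.mul_sum]
      symm
      refine Finset.sum_bij (fun t _ => m * t) (fun t ht => ?_) (fun a _ b _ hab => Nat.eq_of_mul_eq_mul_left (by omega) hab)
        (fun k hk => ?_) (fun t _ => ?_)
      · simp only [mem_filter, mem_range] at *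
        exact ⟨by rw [mul_comm p m]; exact Nat.mul_lt_mul_of_pos_left ht (by omega), Dvd.intro _ rfl⟩
      · simp only [mem_filter, mem_range] at hk
        obtain ⟨h1, t, rfl⟩ := hk
        exact ⟨t, by rw [mul_comm p m] at h1; exact mem_range.2 (Nat.lt_of_mul_lt_mul_left h1), rfl⟩
      · have k : q c d j ((m * t : ℕ) : ℤ) ≡ (j : ℤ) ^ 2 [ZMOD m] :=
          (Int.modEq_iff_dvd.2 ⟨-(c * j * t + d * m * t ^ 2), by simp only [q]; push_cast; ring⟩)
        rw [jacobiSym.mul_right, jacobiSym.mod_left' k]; push_cast; ring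

theorem result : ∀ n : ℕ, n % 4 = 1 → jacobiSym n 7 = -1 → D 42 (-7) n = 0 ∧ D 21 112 n = 0 := by
  intro n h4 h7
  obtain ⟨p, pp, ⟨m, hm⟩, hp7⟩ := exp7 (by omega) h7
  have : Fact p.Prime := ⟨pp⟩
  have po : p % 2 = 1 := by
    rcases pp.eq_two_or_odd with rfl | h
    · omega
    · exact h
  have hp : p = 2 * (p / 2) + 1 := by omega
  have p2 := pp.two_le
  have e7 := jc hp (-7)
  rw [m7 po hp7] at e7
  push_cast at e7
  obtain ⟨t1, t2⟩ := T_zero hp e7.symm
  have n7 : (-7 : ZMod p) ≠ 0 := by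
    intro hc; rw [hc, zero_pow (by omega)] at e7; simp at e7
  have n2 : (2 : ZMod p) ≠ 0 := by
    have : ((2 : ℕ) : ZMod p) ≠ 0 := by
      rw [Ne, ZMod.natCast_eq_zero_iff]; exact Nat.not_dvd_of_pos_of_lt (by omega) (by omega)
    exact_mod_cast this
  refine ⟨main _ _ n p _ m hp hm h4 (by simpa using n7) (by simpa using t2) (fun _ => by simpa using e7.symm),
    main _ _ n p _ m hp hm h4 ?_ (by simpa using t1) (fun hh => ?_)⟩
  · push_cast
    rw [show (112 : ZMod p) = -7 * -(2 ^ 4) by norm_num]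
    exact mul_ne_zero n7 (neg_ne_zero.2 (pow_ne_zero _ n2))
  · push_cast
    have e2 : (2 : ZMod p) ^ (2 * (p / 2)) = 1 := by
      have := ZMod.pow_card_sub_one_eq_one n2
      rwa [show p - 1 = 2 * (p / 2) by omega] at this
    rw [show (112 : ZMod p) = -7 * (-1 * (2 ^ 2 * 2 ^ 2)) by norm_num, mul_pow, mul_pow, mul_pow, ← pow_mul, e2,
      hh.neg_one_pow, ← e7]
    ring

end Pool.Agent.Results.MP_3ec6ae_nt.Vanish
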